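import Pool.Agent.V11210.NA.Mv

/-!
# The measure of algebraic independence of logarithms, apart from the polynomials through one point
-/

set_option autoImplicit false

namespace Pool.Agent.Results.MP_3cf473_nt.ExceptionsOnOnePoint

open Polynomial

/-- the field of the algebraic functions of one variable `X` (over the rational numbers) -/
abbrev AlgFun : Type := AlgebraicClosure (FractionRing ℤ[X])

/-- the variable `X` as an algebraic function -/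
noncomputable def theX : AlgFun :=
  algebraMap (FractionRing ℤ[X]) AlgFun (algebraMap ℤ[X] (FractionRing ℤ[X]) X)

/-- `x` is a nonzero logarithm of a nonzero number with rational real and imaginary parts -/
def LogOfGaussian (x : ℂ) : Prop := x ≠ 0 ∧ ∃ a b : ℚ, Complex.exp x = a + b * Complex.I

/-- `P` has total degree at most `d` and coefficients of absolute value at most `H` -/
def Bounded {n : ℕ} (d : ℕ) (H : ℝ) (P : MvPolynomial (Fin n) ℤ) : Prop :=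
  P.totalDegree ≤ d ∧ ∀ m, |((P.coeff m : ℤ) : ℝ)| ≤ H

/-- the largest absolute value of a coefficient -/
noncomputable def ht (P : ℤ[X][X]) : ℕ :=
  P.support.sup fun j => (P.coeff j).support.sup fun i => ((P.coeff j).coeff i).natAbs

/-- the value `P(x, t)` of a polynomial in two variables -/
noncomputable def value₂ (x t : ℂ) (P : ℤ[X][X]) : ℂ :=
  P.eval₂ (aeval x : ℤ[X] →ₐ[ℤ] ℂ).toRingHom t

/-- the irreducible `P` of degree at most `D` in each of the two variables, with positive leading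
coefficient, with `|P(x, t)| ≤ ht(P) ^ (-w)` and `ht(P) ≤ B` -/
def near (x t : ℂ) (D : ℕ) (w B : ℝ) : Set ℤ[X][X] :=
  {P | (Irreducible P ∧ P.natDegree ≤ D ∧ (∀ j, (P.coeff j).natDegree ≤ D) ∧
    0 < P.leadingCoeff.leadingCoeff) ∧ ‖value₂ x t P‖ ≤ (ht P : ℝ) ^ (-w) ∧ (ht P : ℝ) ≤ B}

lemma theX_eq : theX = Pool.Agent.V11210.NA.fn X := rfl

lemma measT_of (x : ℂ) (hx : LogOfGaussian x) : Pool.Agent.TH456.TM.MeasT x := by
  obtain ⟨hx0, a, b, hab⟩ := hx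
  have h := Pool.Agent.TH456.TM.measT_gauss x hx0 ⟨a.num * b.den, b.num * a.den⟩
    ⟨a.den * b.den, 0⟩ 1 (by
      intro h0
      have h1 := congrArg Zsqrtd.re h0
      simp at h1) (by simp) (by
      rw [hab, GaussianInt.toComplex_def', GaussianInt.toComplex_def']
      have ha : (a : ℂ) * a.den = a.num := by exact_mod_cast Rat.mul_den_eq_num a
      have hb : (b : ℂ) * b.den = b.num := by exact_mod_cast Rat.mul_den_eq_num b
      push_cast
      linear_combination ((b.den : ℂ)) * ha + ((a.den : ℂ) * Complex.I) * hb)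
  simpa using h

open Pool.Agent.V11210.NA in
/-- **The lower bound `|P(x, t)| ≥ c H ^ (-C)` holds apart from the `P` through one point.** -/
theorem result (x : ℂ) (hx : LogOfGaussian x) :
    (∀ r d : ℕ, ∃ C : ℝ, 0 < C ∧ ∀ T : ℝ, ∃ c : ℝ, 0 < c ∧ ∀ t : Fin r → ℂ, (∀ i, ‖t i‖ ≤ T) →
      ∀ H : ℝ, 1 ≤ H → ∃ y : Fin r → AlgFun, ∀ P : MvPolynomial (Fin (r + 1)) ℤ, Bounded d H P →
        P.eval₂ (Int.castRingHom AlgFun) (Fin.cons theX y) ≠ 0 →
        c * H ^ (-C) ≤ ‖P.eval₂ (Int.castRingHom ℂ) (Fin.cons x t)‖) ∧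
    (∀ D : ℕ, ∃ C : ℝ, 0 < C ∧ ∀ T : ℝ, ∃ c : ℝ, 0 < c ∧ ∀ t : ℂ, ‖t‖ ≤ T → ∀ H : ℝ, 1 ≤ H →
      ∃ F : ℤ[X][X], Irreducible F ∧ 0 < F.natDegree ∧ ∀ P : ℤ[X][X], P.natDegree ≤ D →
        (∀ j, (P.coeff j).natDegree ≤ D) → (∀ j i, |((P.coeff j).coeff i : ℝ)| ≤ H) →
        ¬ F ∣ P → c * H ^ (-C) ≤ ‖value₂ x t P‖) ∧
    (∀ D : ℕ, ∃ C : ℝ, 0 < C ∧ ∀ (t : ℂ) (w ρ : ℝ), 1 < ρ → ρ * C < w → ∃ K : ℝ, ∀ B : ℝ, 3 ≤ B →
      (near x t D w B).Finite ∧
        ((near x t D w B).ncard : ℝ) ≤ Real.log (Real.log B) / Real.log ρ + K) := by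
  have hm := measT_of x hx
  refine ⟨fun r d => ?_, fun D => ?_, fun D => ?_⟩
  · obtain ⟨C, hC, h⟩ := near_ev fn fn_inj x hm r d
    refine ⟨C, hC, fun T => ?_⟩
    obtain ⟨c, hc, h⟩ := h T
    refine ⟨c, hc, fun t ht H hH => ?_⟩
    obtain ⟨y, hy⟩ := h t ht H hH
    refine ⟨y, fun P hP hP0 => hy P hP.1 hP.2 ?_⟩
    rw [← theX_eq]
    exact hP0
  · obtain ⟨C, hC, h⟩ := principal x hm D
    refine ⟨C, hC, fun T => ?_⟩
    obtain ⟨c, hc, h⟩ := h T
    refine ⟨c, hc, fun t ht H hH => ?_⟩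
    obtain ⟨F, h1, h2, h3⟩ := h t ht H hH
    refine ⟨F, h1, h2, fun P a1 a2 a3 a4 => ?_⟩
    by_contra hcon
    push Not at hcon
    exact a4 (h3 P a1 a2 a3 hcon)
  · obtain ⟨κ, hκ, h⟩ := Pool.Agent.TH456.TM.core _ hm (D + 1) (by omega)
    refine ⟨κ, hκ, fun t w ρ hρ hw => ?_⟩
    obtain ⟨C, hC⟩ := Pool.Agent.TH456.TM.sparse_alg _ (D + 1) κ hκ h t w ρ hρ
      ((lt_div_iff₀ hκ).2 hw)
    refine ⟨C, fun B hB => ?_⟩
    obtain ⟨h1, h2⟩ := hC B hB
    have hsub : near x t D w B ⊆ {P ∈ {P : ℤ[X][X] | P ∈ Pool.Agent.TH456.TM.IR (D + 1) ∧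
        ‖Pool.Agent.TH456.TM.vl x t P‖ ≤ (Pool.Agent.TH456.TM.hgt P : ℝ) ^ (-w)} |
        (Pool.Agent.TH456.TM.hgt P : ℝ) ≤ B} := by
      rintro P ⟨⟨a1, a2, a3, a4⟩, a5, a6⟩
      refine ⟨⟨⟨a1, a2.trans (by omega), fun j => (a3 j).trans (by omega), a4⟩, ?_⟩, a6⟩
      rw [Pool.Agent.TH456.TM.vl, eval_map]
      exact a5
    refine ⟨h1.subset hsub, le_trans ?_ h2⟩
    exact_mod_cast Set.ncard_le_ncard hsub h1

end Pool.Agent.Results.MP_3cf473_nt.ExceptionsOnOnePoint
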