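import Mathlib
import Pool.Agent.V11118.ZR.Sel

/-!
# Finite-state prediction of the digits of polynomials in logarithms

Let `x ≠ 0` be the logarithm of a positive rational number and `t_1, …, t_r` arbitrary real numbers, for
instance logarithms of other algebraic numbers. A machine with finitely many states reads the digits of a
number in some base one after the other and announces before each digit a guess, which depends on its
state only. If for some polynomials `P` with integer coefficients, of bounded degree and moderate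
height, and some denominators `d` the digits of `P(x, t) / d` are predicted, up to one scale, by small
machines with few errors, then all these polynomials `P` are rational constants at one point
`(X, y_1(X), …, y_r(X))` with algebraic functions `y_i` of the variable `X`.
-/

set_option autoImplicit false

namespace Pool.Agent.Results.MP_3cf473_nt.FiniteStatePrediction

open Finset Pool.Agent Polynomial

/-- the field of the algebraic functions of one variable `X` (over the rational numbers) -/
abbrev AlgFun : Type := AlgebraicClosure (FractionRing ℤ[X])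

/-- the variable `X` as an algebraic function -/
noncomputable def theX : AlgFun :=
  algebraMap (FractionRing ℤ[X]) AlgFun (algebraMap ℤ[X] (FractionRing ℤ[X]) X)

/-- `x` is the logarithm of a positive rational number different from `1` -/
def LogOfRational (x : ℝ) : Prop := x ≠ 0 ∧ ∃ a : ℚ, Real.exp x = a

/-- the value `P(x, t)` -/
noncomputable def value {r : ℕ} (x : ℝ) (t : Fin r → ℝ) (P : MvPolynomial (Fin (r + 1)) ℤ) : ℝ :=
  P.eval₂ (Int.castRingHom ℝ) (Fin.cons x t)

/-- `P(X, y)` is a rational constant, for algebraic functions `y_1, …, y_r` of `X` -/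
def RationalAt {r : ℕ} (y : Fin r → AlgFun) (P : MvPolynomial (Fin (r + 1)) ℤ) : Prop :=
  ∃ ρ : ℚ, P.eval₂ (Int.castRingHom AlgFun) (Fin.cons theX y) = (ρ : AlgFun)

/-- `P` has total degree at most `D` and coefficients of absolute value at most `H`, `1 ≤ d ≤ H` -/
def Bounded {r : ℕ} (D : ℕ) (H : ℝ) (P : MvPolynomial (Fin (r + 1)) ℤ) (d : ℕ) : Prop :=
  P.totalDegree ≤ D ∧ (∀ s, |((P.coeff s : ℤ) : ℝ)| ≤ H) ∧ 1 ≤ d ∧ (d : ℝ) ≤ H

/-- the `i`-th digit of `x` after the point in base `b` -/
noncomputable def digit (b : ℕ) (x : ℝ) (i : ℕ) : ℤ := ⌊x * (b : ℝ) ^ i⌋ % (b : ℤ)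

/-- A machine with the set of states `Q`: the transition function, the guess announced in each
state, and the initial state. -/
structure Machine (Q : Type) where
  next : Q → ℤ → Q
  guess : Q → ℤ
  start : Q

/-- The state of the machine after it has read the first `i` digits of `x` in base `b`. -/
noncomputable def Machine.state {Q : Type} (M : Machine Q) (b : ℕ) (x : ℝ) : ℕ → Q
  | 0 => M.start
  | i + 1 => M.next (M.state b x i) (digit b x (i + 1))

/-- The number of the wrong guesses for the first `n` digits of `x` in base `b`: the guess for the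
digit number `i + 1` is announced when the machine has read the first `i` digits. -/
noncomputable def Machine.errors {Q : Type} (M : Machine Q) (b : ℕ) (x : ℝ) (n : ℕ) : ℕ :=
  ((range n).filter (fun i => M.guess (M.state b x i) ≠ digit b x (i + 1))).card

theorem state_eq {Q : Type} (M : Machine Q) (b : ℕ) (x : ℝ) (i : ℕ) :
    M.state b x i = V60.FSP.st M.next (V60.FSP.dg b x) M.start 0 i := by
  induction i with
  | zero => rfl
  | succ i ih =>
    rw [V60.FSP.st_step, ← ih, Nat.zero_add]
    rfl

theorem errors_eq {Q : Type} [Fintype Q] (M : Machine Q) (b : ℕ) (x : ℝ) (n : ℕ) :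
    M.errors b x n = V60.FSP.err M.next M.guess (V60.FSP.dg b x) M.start 0 n := by
  unfold Machine.errors V60.FSP.err
  congr 1
  apply Finset.filter_congr
  intro i _
  rw [state_eq, Nat.zero_add]
  rfl

/-- For some `d ≤ H`, in some base `b`, some machine with `S` states, `S log b ≤ σ`, makes less than `E`
errors on the first `N` digits of `P(x, t) / d` for some `N` with `N log b ≥ Λ`; `P` has total degree at
most `D` and coefficients of absolute value at most `H`. -/
def Predicted {r : ℕ} (D : ℕ) (H Λ σ E x : ℝ) (t : Fin r → ℝ) (P : MvPolynomial (Fin (r + 1)) ℤ) :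
    Prop :=
  ∃ (d b : ℕ) (Q : Type) (_ : Fintype Q) (M : Machine Q) (N : ℕ), Bounded D H P d ∧
    2 ≤ b ∧ Λ ≤ N * Real.log b ∧ Fintype.card Q * Real.log b ≤ σ ∧
    (M.errors b (value x t P / d) N : ℝ) < E

lemma measT_of (x : ℝ) (hx : LogOfRational x) : Pool.Agent.TH456.TM.MeasT (x : ℂ) := by
  obtain ⟨hx0, a, ha'⟩ := hx
  have hx0' : (x : ℂ) ≠ 0 := Complex.ofReal_ne_zero.2 hx0
  have hab : Complex.exp (x : ℂ) = (a : ℂ) := by
    rw [← Complex.ofReal_exp, ha']
    push_cast
    rfl
  have h := Pool.Agent.TH456.TM.measT_gauss (x : ℂ) hx0' ⟨a.num, 0⟩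
    ⟨a.den, 0⟩ 1 (by
      intro h0
      have h1 := congrArg Zsqrtd.re h0
      simp at h1) (by simp) (by
      rw [hab, GaussianInt.toComplex_def', GaussianInt.toComplex_def']
      have ha : (a : ℂ) * a.den = a.num := by exact_mod_cast Rat.mul_den_eq_num a
      push_cast
      linear_combination ha)
  simpa using h

lemma rationalAt_iff {r : ℕ} (y : Fin r → AlgFun) (P : MvPolynomial (Fin (r + 1)) ℤ) :
    RationalAt y P ↔ V11118.ZR.RatAt y P := Iff.rfl

theorem part1 (x : ℝ) (hx : LogOfRational x) (r D m : ℕ) (hm : 1 ≤ m) :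
    ∃ μ : ℝ, 1 < μ ∧ ∀ T : ℝ, ∃ C : ℝ, ∀ t : Fin r → ℝ, (∀ i, |t i| ≤ T) → ∀ H : ℝ, 1 ≤ H →
      ∀ (P : Fin m → MvPolynomial (Fin (r + 1)) ℤ) (d : Fin m → ℕ), (∀ i, Bounded D H (P i) (d i)) →
      ∀ b : Fin m → ℕ, (∀ i, 2 ≤ b i) → ∀ (Q : Fin m → Type) [∀ i, Fintype (Q i)]
        (M : ∀ i, Machine (Q i)) (N : Fin m → ℕ) (Λ : ℝ), 0 < Λ → (∀ i, Λ ≤ N i * Real.log (b i)) →
        (((∑ i, (M i).errors (b i) (value x t (P i) / d i) (N i) : ℕ) : ℝ) <
          (Real.log Λ - Real.log ((∑ i, (Fintype.card (Q i) : ℝ) * Real.log (b i)) + Real.log H)) /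
            Real.log μ - C) →
        ∃ y : Fin r → AlgFun, ∀ i, RationalAt y (P i) := by
  obtain ⟨μ, hμ, h⟩ := V11118.ZR.bound_polys x (measT_of x hx) r D m hm
  refine ⟨μ, hμ, fun T => ?_⟩
  obtain ⟨C, h⟩ := h T
  refine ⟨C, fun t ht H hH P d hP b hb Q _ M N Λ hΛ hN herr => ?_⟩
  by_contra hcon
  push Not at hcon
  have h1 := h t ht H hH P d (fun i => (hP i).1) (fun i => (hP i).2.1) (fun i => (hP i).2.2)
    (fun y => hcon y) b hb Q (fun i => (M i).next) (fun i => (M i).guess) (fun i => (M i).start) N Λ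
    hΛ hN
  have h2 : (∑ i, (M i).errors (b i) (value x t (P i) / d i) (N i)) =
      ∑ i, V60.FSP.err (M i).next (M i).guess (V60.FSP.dg (b i) (V11118.ZR.rv x t (P i) / d i))
        (M i).start 0 (N i) := Finset.sum_congr rfl fun i _ => errors_eq _ _ _ _
  rw [h2] at herr
  exact absurd herr (not_lt.2 h1)

/-- **Finite-state prediction of the digits of polynomials in logarithms.** Let `x` be the logarithm of a
positive rational number `≠ 1`, `r` and `D` natural numbers.
(1) For every `m ≥ 1` there is `μ > 1`, and for every `T` some `C`, such that for all real `t_1, …, t_r`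
with `|t_i| ≤ T`: if machines with `S_i` states (`1 ≤ i ≤ m`) read the first `N_i` digits of `P_i(x, t) / d_i`
in base `b_i`, `N_i log b_i ≥ Λ > 0`, and make together less than
`(log Λ - log (∑ S_i log b_i + log H)) / log μ - C` wrong guesses, then there are algebraic functions
`y_1, …, y_r` of `X` such that `P_1(X, y), …, P_m(X, y)` are rational numbers.
(2) There is `ν > 0`, and for every `T` some `C`, such that for all real `t_1, …, t_r` with `|t_i| ≤ T`, all
`Λ > 0`, `σ`, `H ≥ 1` there are algebraic functions `y_1, …, y_r` of `X` such that `P(X, y)` is a rational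
number for all `P` which are predicted with less than `(log Λ - log (σ + log H)) / ν - C` errors. -/
theorem result (x : ℝ) (hx : LogOfRational x) (r D : ℕ) :
    (∀ m : ℕ, 1 ≤ m → ∃ μ : ℝ, 1 < μ ∧ ∀ T : ℝ, ∃ C : ℝ, ∀ t : Fin r → ℝ, (∀ i, |t i| ≤ T) →
      ∀ H : ℝ, 1 ≤ H → ∀ (P : Fin m → MvPolynomial (Fin (r + 1)) ℤ) (d : Fin m → ℕ),
      (∀ i, Bounded D H (P i) (d i)) → ∀ b : Fin m → ℕ, (∀ i, 2 ≤ b i) →
      ∀ (Q : Fin m → Type) [∀ i, Fintype (Q i)] (M : ∀ i, Machine (Q i)) (N : Fin m → ℕ) (Λ : ℝ),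
        0 < Λ → (∀ i, Λ ≤ N i * Real.log (b i)) →
        (((∑ i, (M i).errors (b i) (value x t (P i) / d i) (N i) : ℕ) : ℝ) <
          (Real.log Λ - Real.log ((∑ i, (Fintype.card (Q i) : ℝ) * Real.log (b i)) + Real.log H)) /
            Real.log μ - C) →
        ∃ y : Fin r → AlgFun, ∀ i, RationalAt y (P i)) ∧
    (∃ ν : ℝ, 0 < ν ∧ ∀ T : ℝ, ∃ C : ℝ, ∀ t : Fin r → ℝ, (∀ i, |t i| ≤ T) → ∀ Λ σ H : ℝ, 0 < Λ → 1 ≤ H →
      ∃ y : Fin r → AlgFun, ∀ P : MvPolynomial (Fin (r + 1)) ℤ,
        Predicted D H Λ σ ((Real.log Λ - Real.log (σ + Real.log H)) / ν - C) x t P →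
          RationalAt y P) := by
  refine ⟨fun m hm => part1 x hx r D m hm, ?_⟩
  set m : ℕ := (V11210.NA.box (r + 1) D).card with hmdef
  have hm : 1 ≤ m := by
    rw [hmdef, Nat.one_le_iff_ne_zero, Finset.card_ne_zero]
    exact ⟨0, V11210.NA.mem_box.2 (by simp)⟩
  have hm1 : (1 : ℝ) ≤ m := by exact_mod_cast hm
  have hm0 : (0 : ℝ) < m := by linarith
  obtain ⟨μ, hμ, h⟩ := part1 x hx r D m hm
  have hlμ : 0 < Real.log μ := Real.log_pos hμ
  refine ⟨m * Real.log μ, by positivity, fun T => ?_⟩
  obtain ⟨C, h⟩ := h T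
  refine ⟨(C + Real.log m / Real.log μ) / m, fun t ht Λ σ H hΛ hH => ?_⟩
  set E : ℝ := (Real.log Λ - Real.log (σ + Real.log H)) / (m * Real.log μ) -
    (C + Real.log m / Real.log μ) / m with hE
  by_cases hne : ∃ P0, Predicted D H Λ σ E x t P0
  · obtain ⟨P0, hP0⟩ := hne
    obtain ⟨f, hf1, hf2⟩ := V11118.ZR.sel (D := D) {P | Predicted D H Λ σ E x t P} P0 hP0
      (fun P hP => by
        obtain ⟨d, b, Q, _, M, N, h1, -⟩ := hP
        exact h1.1)
    have hf1' : ∀ j, Predicted D H Λ σ E x t (f j) := hf1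
    unfold Predicted at hf1'
    choose d b Q instQ M N hB hb hN hS hM using hf1'
    have hlH : 0 ≤ Real.log H := Real.log_nonneg hH
    have hlb : ∀ j, 0 < Real.log (b j) := fun j => V11015.FS.log_base_pos (hb j)
    have hcardpos : ∀ j, (1 : ℝ) ≤ Fintype.card (Q j) := fun j => by
      have : Nonempty (Q j) := ⟨(M j).start⟩
      exact_mod_cast Fintype.card_pos (α := Q j)
    have hσ : 0 < σ := by
      have h1 := hS ⟨0, hm⟩
      have h2 := hlb ⟨0, hm⟩
      have h3 := hcardpos ⟨0, hm⟩
      nlinarith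
    have hsum : ∑ j, (Fintype.card (Q j) : ℝ) * Real.log (b j) ≤ m * σ := by
      calc ∑ j, (Fintype.card (Q j) : ℝ) * Real.log (b j) ≤ ∑ _j : Fin m, σ :=
            Finset.sum_le_sum fun j _ => hS j
        _ = m * σ := by rw [Finset.sum_const, Finset.card_univ, Fintype.card_fin, nsmul_eq_mul]
    have hsum0 : 0 < ∑ j, (Fintype.card (Q j) : ℝ) * Real.log (b j) := by
      have : Nonempty (Fin m) := ⟨⟨0, hm⟩⟩
      exact Finset.sum_pos (fun j _ => mul_pos (by linarith [hcardpos j]) (hlb j))
        Finset.univ_nonempty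
    have hlog : Real.log ((∑ j, (Fintype.card (Q j) : ℝ) * Real.log (b j)) + Real.log H) ≤
        Real.log m + Real.log (σ + Real.log H) := by
      rw [← Real.log_mul hm0.ne' (by positivity)]
      apply Real.log_le_log (by linarith)
      nlinarith
    have herr : (((∑ j, (M j).errors (b j) (value x t (f j) / d j) (N j) : ℕ) : ℝ) <
        (Real.log Λ - Real.log ((∑ j, (Fintype.card (Q j) : ℝ) * Real.log (b j)) + Real.log H)) /
          Real.log μ - C) := by
      have h1 : ((∑ j, (M j).errors (b j) (value x t (f j) / d j) (N j) : ℕ) : ℝ) < m * E := by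
        push_cast
        have : Nonempty (Fin m) := ⟨⟨0, hm⟩⟩
        calc ∑ j, ((M j).errors (b j) (value x t (f j) / d j) (N j) : ℝ) < ∑ _j : Fin m, E :=
              Finset.sum_lt_sum_of_nonempty Finset.univ_nonempty fun j _ => hM j
          _ = m * E := by rw [Finset.sum_const, Finset.card_univ, Fintype.card_fin, nsmul_eq_mul]
      have h2 : (m : ℝ) * E = (Real.log Λ - (Real.log m + Real.log (σ + Real.log H))) / Real.log μ -
          C := by
        rw [hE]
        field_simp
        ring
      have h3 : (Real.log Λ - (Real.log m + Real.log (σ + Real.log H))) / Real.log μ ≤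
          (Real.log Λ - Real.log ((∑ j, (Fintype.card (Q j) : ℝ) * Real.log (b j)) +
            Real.log H)) / Real.log μ := div_le_div_of_nonneg_right (by linarith) hlμ.le
      linarith
    obtain ⟨y, hy⟩ := h t ht H hH f d hB b hb Q M N Λ hΛ hN herr
    exact ⟨y, fun P hP => hf2 y hy P hP⟩
  · push Not at hne
    exact ⟨fun _ => 0, fun P hP => absurd hP (hne P)⟩

end Pool.Agent.Results.MP_3cf473_nt.FiniteStatePrediction
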