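import Pool.Agent.Helper264.NT.NearK
import Pool.Agent.Y124.App
import Pool.Agent.Y771.KF.App

/-!
# The measure of algebraic independence for logarithms at all algebraic points near almost every point

The conjecture says that `|P(log α_1, …, log α_n)| ≥ H ^ (-C)` for the nonzero integer polynomials `P` of degree at most `d`
and height at most `H`, if the logarithms are linearly independent over `ℚ`.

Here there is one subset `E` of `ℂ ^ n` of Hausdorff dimension at most `2 n - 2` such that for all `z` in `(ℂ^×) ^ n` outside of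
`E`, all number fields `K ⊂ ℂ`, all degrees `d`, all `A`, all `R` and ALL exponents `w > 0` (arbitrarily small) there are `B` and
`T₀` such that for all `T ≥ T₀`, for all numbers `α_1, …, α_n` in `K` of height at most `T` with `|α_j - z_j| ≤ T ^ (-w)` and all
their logarithms `ℓ_1, …, ℓ_n` of absolute value at most `R` (all branches): `|P(π, ℓ_1, …, ℓ_n)| > T ^ (-B)` for ALL nonzero
polynomials `P` in `n + 1` variables over `K` of partial degrees at most `d` and with coefficients of height at most `T ^ A`.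
There are no exceptional tuples. The bound `2 n - 2` is sharp: `E` contains the diagonals `z_1 = z_2`, since there are tuples with
`α_1 = α_2` near these points (for `w < 1`).

Proof: the exceptional tuples lie on `C T ^ ε` hypersurfaces of degree at most `D` (`Pool.Agent.Y771.KF.stdK` of helper771 and
helper124), and the points near such hypersurfaces form a set of dimension at most `2 n - 2` (uniform coverings of the zeros
of polynomials of bounded degree, `Pool.Agent.Helper264.NT.mainK`). The algebraic independence of `t` and `log t` follows from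
the periods of the exponential function.
-/

set_option autoImplicit false

open Height Filter Topology
open scoped ENNReal

namespace Pool.Agent.Results.MP_3cf473_nt.MeasureNearEveryPoint

/-- the numbers `π, ℓ_1, …, ℓ_n` -/
noncomputable def numbers {n : ℕ} (l : Fin n → ℂ) (x : Option (Fin n)) : ℂ := x.elim (Real.pi : ℂ) l

lemma sgn_sq (c : ℤ) : ((-1 : ℂ) ^ c) * (-1) ^ c = 1 := by
  rcases Int.even_or_odd c with h | h
  · rw [h.neg_one_zpow, mul_one]
  · rw [h.neg_one_zpow]
    norm_num

lemma sgn_ne (c : ℤ) : ((-1 : ℂ) ^ c) ≠ 0 := fun h => by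
  have := sgn_sq c
  rw [h, mul_zero] at this
  exact zero_ne_one this

/-- an analytic branch of the logarithm -/
noncomputable def L (c : ℤ) (t : ℂ) : ℂ := Complex.log ((-1) ^ c * t) + c * (Real.pi * Complex.I)

/-- its domain -/
def dom (c : ℤ) : Set ℂ := {t | (-1) ^ c * t ∈ Complex.slitPlane}

lemma dom_open (c : ℤ) : IsOpen (dom c) := Complex.isOpen_slitPlane.preimage (continuous_const.mul continuous_id)

lemma dom_preconn (c : ℤ) : IsPreconnected (dom c) := by
  have h1 : dom c = (fun t : ℂ => (-1) ^ c * t) '' Complex.slitPlane := by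
    ext t
    constructor
    · intro h
      refine ⟨_, h, ?_⟩
      change (-1) ^ c * ((-1) ^ c * t) = t
      rw [← mul_assoc, sgn_sq, one_mul]
    · rintro ⟨s, hs, rfl⟩
      change (-1) ^ c * ((-1) ^ c * s) ∈ Complex.slitPlane
      rwa [← mul_assoc, sgn_sq, one_mul]
  rw [h1]
  have h2 : IsPreconnected Complex.slitPlane :=
    (Complex.starConvex_one_slitPlane.isPathConnected Complex.one_mem_slitPlane).isConnected.isPreconnected
  exact h2.image _ (continuous_const.mul continuous_id).continuousOn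

lemma dom_nonempty (c : ℤ) : (dom c).Nonempty := ⟨(-1) ^ c, by
  change (-1) ^ c * (-1) ^ c ∈ Complex.slitPlane
  rw [sgn_sq]
  exact Complex.one_mem_slitPlane⟩

lemma L_an (c : ℤ) : AnalyticOnNhd ℂ (L c) (dom c) := fun _ ht =>
  ((analyticAt_const.mul analyticAt_id).clog ht).add analyticAt_const

lemma L_exp (c : ℤ) {t : ℂ} (ht : t ∈ dom c) : Complex.exp (L c t) = t := by
  rw [L, Complex.exp_add, Complex.exp_log (Complex.slitPlane_ne_zero ht), Complex.exp_int_mul, Complex.exp_pi_mul_I]
  rw [mul_comm ((-1 : ℂ) ^ c) t, mul_assoc, sgn_sq, mul_one]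

/-- `t` and `log t` are algebraically independent -/
lemma log_indep (S : Set ℂ) (hSo : IsOpen S) (hne : S.Nonempty) (l : ℂ → ℂ) (hl : AnalyticOnNhd ℂ l S)
    (hexp : ∀ t ∈ S, Complex.exp (l t) = t) : Pool.Agent.Y771.KF.AIndepS (fun _ : Unit => l) S := by
  classical
  intro P hP
  set F : ℂ → ℂ := fun u => MvPolynomial.aeval (fun o : Option Unit => o.elim (Complex.exp u) fun _ => u) P with hF
  have hFa : AnalyticOnNhd ℂ F Set.univ := by
    refine AnalyticOnNhd.aeval_mvPolynomial (fun i => ?_) P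
    cases i with
    | none => exact fun u _ => analyticAt_cexp
    | some a => exact fun u _ => analyticAt_id
  obtain ⟨t0, ht0⟩ := hne
  have hzero : ∀ t ∈ S, F (l t) = 0 := by
    intro t ht
    rw [hF]
    simp only [hexp t ht]
    rw [MvPolynomial.aeval_eq_eval]
    exact hP t ht
  have htend : Tendsto l (𝓝[≠] t0) (𝓝[≠] (l t0)) := by
    refine tendsto_nhdsWithin_of_tendsto_nhds_of_eventually_within _
      ((hl t0 ht0).continuousAt.tendsto.mono_left nhdsWithin_le_nhds) ?_
    filter_upwards [self_mem_nhdsWithin, nhdsWithin_le_nhds (hSo.mem_nhds ht0)] with t h1 h2 h3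
    apply h1
    change l t = l t0 at h3
    change t = t0
    rw [← hexp t h2, h3, hexp t0 ht0]
  have hfreq : ∃ᶠ u in 𝓝[≠] (l t0), F u = 0 := by
    refine htend.frequently ?_
    refine Eventually.frequently ?_
    filter_upwards [nhdsWithin_le_nhds (hSo.mem_nhds ht0)] with t h2
    exact hzero t h2
  have hall : ∀ u, F u = 0 := fun u =>
    hFa.eqOn_zero_of_preconnected_of_frequently_eq_zero isPreconnected_univ (Set.mem_univ _) hfreq (Set.mem_univ u)
  have h0 : ∀ t : ℂ, t ≠ 0 → ∀ y : ℂ, MvPolynomial.eval (fun o : Option Unit => o.elim t fun _ => y) P = 0 := by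
    intro t ht
    obtain ⟨x, rfl⟩ : ∃ x, Complex.exp x = t := ⟨Complex.log t, Complex.exp_log ht⟩
    set Q : Polynomial ℂ := MvPolynomial.aeval (fun o : Option Unit => o.elim (Polynomial.C (Complex.exp x))
      fun _ => Polynomial.X) P with hQ
    have hQe : ∀ y, Q.eval y = MvPolynomial.eval (fun o : Option Unit => o.elim (Complex.exp x) fun _ => y) P := by
      intro y
      have h1 : Q.eval y = (Polynomial.aeval y : Polynomial ℂ →ₐ[ℂ] ℂ) Q := by
        rw [Polynomial.coe_aeval_eq_eval]
      rw [h1, hQ, ← AlgHom.comp_apply, MvPolynomial.comp_aeval, MvPolynomial.aeval_eq_eval]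
      congr 2
      funext o
      cases o <;> simp
    have hQ0 : Q = 0 := by
      refine Polynomial.eq_zero_of_infinite_isRoot Q ?_
      refine Set.Infinite.mono (s := Set.range fun m : ℤ => x + m * (2 * Real.pi * Complex.I)) ?_ ?_
      · rintro _ ⟨m, rfl⟩
        change Q.eval _ = 0
        rw [hQe]
        have h2 := hall (x + m * (2 * Real.pi * Complex.I))
        rw [hF] at h2
        simp only [Complex.exp_add, Complex.exp_int_mul_two_pi_mul_I, mul_one] at h2
        rw [MvPolynomial.aeval_eq_eval] at h2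
        exact h2
      · refine Set.infinite_range_of_injective fun a b hab => ?_
        simp only [add_right_inj] at hab
        have h3 : (2 * (Real.pi : ℂ) * Complex.I) ≠ 0 := Complex.two_pi_I_ne_zero
        exact_mod_cast mul_right_cancel₀ h3 hab
    intro y
    rw [← hQe, hQ0, Polynomial.eval_zero]
  have h4 : MvPolynomial.X none * P = 0 := by
    refine MvPolynomial.funext fun v => ?_
    rw [map_mul, MvPolynomial.eval_X, map_zero]
    by_cases hv : v none = 0
    · rw [hv, zero_mul]
    · have h5 := h0 (v none) hv (v (some ()))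
      have h6 : (fun o : Option Unit => o.elim (v none) fun _ => v (some ())) = v := by
        funext o
        cases o <;> rfl
      rw [h6] at h5
      rw [h5, mul_zero]
  rcases mul_eq_zero.1 h4 with h | h
  · exact absurd h (MvPolynomial.X_ne_zero _)
  · exact h

/-- every nonzero polynomial in `n + 1` variables with coefficients in `K` of height at most `T ^ A`, of degree at most `d` in
each variable, takes at the numbers `π, ℓ_1, …, ℓ_n` a value of absolute value greater than `T ^ (-B)` -/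
def Measure {n : ℕ} (K : IntermediateField ℚ ℂ) [NumberField K] (d : ℕ) (A B T : ℝ) (l : Fin n → ℂ) : Prop :=
  ∀ P : MvPolynomial (Option (Fin n)) K, P ≠ 0 → (∀ i, P.degreeOf i ≤ d) → (∀ s, mulHeight₁ (P.coeff s) ≤ T ^ A) →
    T ^ (-B) < ‖MvPolynomial.eval₂ (algebraMap K ℂ) (numbers l) P‖

lemma dom_cover {z : ℂ} (hz : z ≠ 0) : ∃ c : ℤ, (c = 0 ∨ c = 1) ∧ z ∈ dom c := by
  by_cases h : z ∈ Complex.slitPlane
  · exact ⟨0, Or.inl rfl, by simpa [dom] using h⟩
  · refine ⟨1, Or.inr rfl, ?_⟩
    rw [Complex.mem_slitPlane_iff] at h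
    push Not at h
    change (-1 : ℂ) ^ (1 : ℤ) * z ∈ Complex.slitPlane
    rw [zpow_one, neg_one_mul, Complex.mem_slitPlane_iff]
    left
    rw [Complex.neg_re]
    have h1 : z.re ≠ 0 := fun h1 => hz (Complex.ext h1 h.2)
    have h2 := lt_of_le_of_ne h.1 h1
    linarith

lemma sgn_add (c m : ℤ) : (-1 : ℂ) ^ (c + 2 * m) = (-1) ^ c := by
  rw [zpow_add₀ (by norm_num), zpow_mul]
  norm_num

lemma dom_add (c m : ℤ) : dom (c + 2 * m) = dom c := by
  unfold dom
  rw [sgn_add]

/-- the renaming of the variables -/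
def ren (n : ℕ) : Option (Fin n) ≃ (Fin n × Unit) ⊕ Unit where
  toFun o := o.elim (Sum.inr ()) fun j => Sum.inl (j, ())
  invFun := Sum.elim (fun c => some c.1) fun _ => none
  left_inv o := by cases o <;> rfl
  right_inv o := by rcases o with ⟨j, u⟩ | u <;> rfl

/-- **Theorem.** Let `n ≥ 1`. There is a subset `E` of `ℂ ^ n` of Hausdorff dimension at most `2 (n - 1)` such that for all `z`
outside of `E` with `z_j ≠ 0`, all number fields `K ⊂ ℂ`, all `d`, `A`, `R` and `w > 0` there are `B` and `T₀` such that for all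
`T ≥ T₀`, all `n`-tuples `α` of elements of `K` of height at most `T` with `|α_j - z_j| ≤ T ^ (-w)` and all logarithms `ℓ_j` of
the `α_j` of absolute value at most `R`: the absolute value at `π, ℓ_1, …, ℓ_n` of every nonzero polynomial over `K` of partial
degrees at most `d` and with coefficients of height at most `T ^ A` is greater than `T ^ (-B)`. -/
theorem result (n : ℕ) (hn : 1 ≤ n) :
    ∃ E : Set (Fin n → ℂ), dimH E ≤ ((2 * (n - 1) : ℕ) : ℝ≥0∞) ∧ ∀ z ∉ E, (∀ j, z j ≠ 0) →
      ∀ (K : IntermediateField ℚ ℂ) [NumberField K] (d : ℕ) (A R w : ℝ), 0 < w → ∃ B T₀ : ℝ, ∀ T ≥ T₀,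
        ∀ (α : Fin n → K) (l : Fin n → ℂ), (∀ j, mulHeight₁ (α j) ≤ T ∧ ‖(α j : ℂ) - z j‖ ≤ T ^ (-w)) →
          (∀ j, Complex.exp (l j) = (α j : ℂ) ∧ ‖l j‖ ≤ R) → Measure K d A B T l := by
  classical
  have hnn : Nonempty (Fin n) := ⟨⟨0, hn⟩⟩
  have hmain := fun c : Fin n → ℤ => Pool.Agent.Helper264.NT.mainK (𝕜 := ℂ) (X := Fin n) (RingHom.id ℂ) (fun _ => rfl)
    (Y₀ := Unit) (Yc := Unit) (fun x _ => L (c x)) (fun _ => Real.pi) (fun x => dom (c x)) (fun x => dom_open _)
    (fun x => dom_preconn _) (fun x _ => L_an _)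
    (fun x => log_indep _ (dom_open _) (dom_nonempty _) _ (L_an _) fun t ht => L_exp _ ht) Pool.Agent.Y124.goodXi_pi
  choose E hE1 hE2 using hmain
  refine ⟨⋃ c, E c, ?_, ?_⟩
  · rw [dimH_iUnion]
    exact iSup_le fun c => by simpa using hE1 c
  intro z hz hz0 K _ d A R w hw
  choose ε hε1 hε2 using fun j => dom_cover (hz0 j)
  have hz' : ∀ m : Fin n → ℤ, ∃ B T0 : ℝ, ∀ T ≥ T0, ∀ t : Fin n → K,
      (∀ x, mulHeight₁ (t x) ≤ T ∧ ‖(t x : ℂ) - z x‖ ≤ T ^ (-w)) →
        ¬ Pool.Agent.Helper264.NT.Rel (algebraMap K ℂ) (fun x (_ : Unit) => L (ε x + 2 * m x)) (fun _ : Unit => Real.pi)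
          d A B T t := by
    intro m
    exact hE2 (fun x => ε x + 2 * m x) z (fun h => hz (Set.mem_iUnion.2 ⟨_, h⟩))
      (fun x => by rw [dom_add]; exact hε2 x) K d A w hw
  choose B T0 hB using hz'
  obtain ⟨M, hM⟩ := exists_nat_ge (R + 2)
  set S : Finset (Fin n → ℤ) := Fintype.piFinset fun _ => Finset.Icc (-(M : ℤ)) M with hS
  have hnear : ∀ᶠ T : ℝ in atTop, ∀ j, ∀ a : ℂ, ‖a - z j‖ ≤ T ^ (-w) → a ∈ dom (ε j) := by
    rw [eventually_all]
    intro j
    obtain ⟨δ, hδ, hball⟩ := Metric.isOpen_iff.1 (dom_open (ε j)) (z j) (hε2 j)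
    filter_upwards [(tendsto_rpow_neg_atTop hw).eventually (gt_mem_nhds hδ)] with T hT a ha
    refine hball ?_
    rw [Metric.mem_ball, dist_eq_norm]
    exact lt_of_le_of_lt ha hT
  obtain ⟨T1, hT1⟩ := eventually_atTop.1 hnear
  refine ⟨∑ m ∈ S, |B m|, max (max 1 T1) (∑ m ∈ S, |T0 m|), fun T hT α l hα hl => ?_⟩
  have hT1' : 1 ≤ T := le_trans (le_trans (le_max_left _ _) (le_max_left _ _)) hT
  have hT2 : T1 ≤ T := le_trans (le_trans (le_max_right _ _) (le_max_left _ _)) hT
  have hT3 : ∑ m ∈ S, |T0 m| ≤ T := le_trans (le_max_right _ _) hT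
  have hdom : ∀ j, (α j : ℂ) ∈ dom (ε j) := fun j => hT1 T hT2 j _ (hα j).2
  have hm : ∀ j, ∃ m : ℤ, l j = L (ε j + 2 * m) (α j) ∧ m ∈ Finset.Icc (-(M : ℤ)) M := by
    intro j
    have h1 : Complex.exp (l j) = Complex.exp (L (ε j) (α j)) := by rw [(hl j).1, L_exp _ (hdom j)]
    obtain ⟨m, hm⟩ := Complex.exp_eq_exp_iff_exists_int.1 h1
    have h2 : l j = L (ε j + 2 * m) (α j) := by
      rw [hm]
      unfold L
      rw [sgn_add]
      push_cast
      ring
    refine ⟨m, h2, ?_⟩
    have h3 : (l j).im = (Complex.log ((-1) ^ (ε j + 2 * m) * (α j : ℂ))).im + ((ε j + 2 * m : ℤ) : ℝ) * Real.pi := by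
      rw [h2]
      unfold L
      simp [Complex.mul_im]
    have h4 := Complex.abs_arg_le_pi ((-1) ^ (ε j + 2 * m) * (α j : ℂ))
    rw [Complex.log_im] at h3
    have h5 := (Complex.abs_im_le_norm (l j)).trans (hl j).2
    have h6 : |((ε j + 2 * m : ℤ) : ℝ)| * Real.pi ≤ R + Real.pi := by
      have h7 : ((ε j + 2 * m : ℤ) : ℝ) * Real.pi = (l j).im - Complex.arg ((-1) ^ (ε j + 2 * m) * (α j : ℂ)) := by
        rw [h3]
        ring
      rw [← abs_of_pos Real.pi_pos, ← abs_mul, abs_of_pos Real.pi_pos, h7]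
      exact (abs_sub _ _).trans (add_le_add h5 h4)
    have hR0 : 0 ≤ R := (norm_nonneg _).trans (hl j).2
    have h8 : |((ε j + 2 * m : ℤ) : ℝ)| ≤ R + 1 := by
      by_contra h9
      rw [not_le] at h9
      have h10 : (R + 1) * Real.pi < |((ε j + 2 * m : ℤ) : ℝ)| * Real.pi := mul_lt_mul_of_pos_right h9 Real.pi_pos
      have h11 : R ≤ R * Real.pi := le_mul_of_one_le_right hR0 (by linarith [Real.pi_gt_three])
      nlinarith
    have h12 : |((ε j + 2 * m : ℤ) : ℝ)| ≤ (M : ℝ) - 1 := by linarith
    have h13 : |ε j + 2 * m| ≤ (M : ℤ) - 1 := by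
      have : ((|ε j + 2 * m| : ℤ) : ℝ) ≤ (((M : ℤ) - 1 : ℤ) : ℝ) := by
        push_cast
        push_cast at h12
        exact h12
      exact_mod_cast this
    rw [abs_le] at h13
    rw [Finset.mem_Icc]
    rcases hε1 j with h | h <;> rw [h] at h13 <;> constructor <;> omega
  choose m hml hmM using hm
  have hmS : m ∈ S := by
    rw [hS, Fintype.mem_piFinset]
    exact hmM
  intro P hP hd hc
  by_contra hlt
  rw [not_lt] at hlt
  have hBm : B m ≤ ∑ m ∈ S, |B m| :=
    (le_abs_self _).trans (Finset.single_le_sum (f := fun m => |B m|) (fun _ _ => abs_nonneg _) hmS)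
  have hTm : T0 m ≤ T :=
    ((le_abs_self _).trans (Finset.single_le_sum (f := fun m => |T0 m|) (fun _ _ => abs_nonneg _) hmS)).trans hT3
  have hval : ‖MvPolynomial.eval₂ (algebraMap K ℂ) (numbers l) P‖ ≤ T ^ (-(B m)) :=
    hlt.trans (Real.rpow_le_rpow_of_exponent_le hT1' (by linarith))
  have hexc := Pool.Agent.Y771.KF.ExcK_of_rename (ren n) (algebraMap K ℂ) (fun x (_ : Unit) => L (ε x + 2 * m x))
    (fun _ : Unit => Real.pi) (fun _ => Set.univ) d A (B m) T α (fun x => ⟨Set.mem_univ _, (hα x).1⟩) (numbers l)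
    (fun o => by
      cases o with
      | none => rfl
      | some j => exact hml j) P hP hd hc hval
  exact hB m T hTm α hα hexc.2

end Pool.Agent.Results.MP_3cf473_nt.MeasureNearEveryPoint
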